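import Pool.Agent.V11217.TDM

/-! Turing determinacy and the Calkin algebra: invariants, with values in a set that injects into the
reals, of bounded operators from a normed space `Y` to a separable Hilbert space `E`, up to compact
perturbations. Stated as explicit reductions to the determinacy of Turing invariant sets. -/

set_option autoImplicit false

namespace Pool.Agent.Results.MP_917879_lc.CalkinAlgebra

open Pool.Agent.H685R3 Pool.Agent.TH774.TD Pool.Agent.V11217.TDK Filter Topology ENNReal

/-- `x` and `y` have the same Turing degree (Mathlib's Turing reducibility, for characteristic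
functions). -/
def SameDegree (x y : ℕ → Bool) : Prop :=
  TuringReducible (charFn x) (charFn y) ∧ TuringReducible (charFn y) (charFn x)

/-- The property `P` follows from the determinacy of countably many Turing invariant sets, read off
from the elements `c x` of `C` with the help of `κ : C → 2^ℕ`. -/
def ReducesTo {C : Type*} (κ : C → ℕ → Bool) (c : (ℕ → Bool) → C) (P : Prop) : Prop :=
  (∀ i, TuringInvariant {x | κ (c x) i = true}) ∧ ((∀ i, Determined {x | κ (c x) i = true}) → P)

section defs

variable {𝕜 : Type*} [RCLike 𝕜] {E : Type*} [NormedAddCommGroup E] [InnerProductSpace 𝕜 E]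
  {Y : Type*} [NormedAddCommGroup Y] [NormedSpace 𝕜 Y]

/-- `S - S'` is a compact operator. -/
def Near (S S' : Y →L[𝕜] E) : Prop := IsCompactOperator (S - S')

/-- There are `S₁`, `S₂`, `S₃`, `S₄` at which `F` takes the same value, with `S₁ - (S₂ + S₃)` and
`T - (S₁ + S₄)` compact. -/
def Repeats {C : Type*} (F : (Y →L[𝕜] E) → C) (T : Y →L[𝕜] E) : Prop :=
  ∃ S₁ S₂ S₃ S₄ : Y →L[𝕜] E, F S₂ = F S₁ ∧ F S₃ = F S₁ ∧ F S₄ = F S₁ ∧
    Near S₁ (S₂ + S₃) ∧ Near T (S₁ + S₄)

/-- For each function `F` of the bounded operators `Y → E`, invariant under compact perturbations,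
with values in a set with an injection `κ` into the Cantor space, and each `T`: that the value of `F`
repeats in the sense above reduces to the determinacy of sets read off from `F (D x ∘ T)`. -/
def Invariants (D : (ℕ → Bool) → E →L[𝕜] E) (Y : Type*) [NormedAddCommGroup Y] [NormedSpace 𝕜 Y] :
    Prop :=
  ∀ (C : Type) (κ : C → ℕ → Bool), Function.Injective κ → ∀ F : (Y →L[𝕜] E) → C,
    (∀ S S' : Y →L[𝕜] E, Near S S' → F S = F S') →
    ∀ T : Y →L[𝕜] E, ReducesTo κ (fun x => F ((D x).comp T)) (Repeats F T)

/-- For each additive map `φ` from the bounded operators `Y → E` to a group with an injection `κ`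
into the Cantor space, zero on the compact operators, and each `T`: that `φ T = 0` reduces to the
determinacy of sets read off from `φ (D x ∘ T)`. -/
def AdditiveMaps (D : (ℕ → Bool) → E →L[𝕜] E) (Y : Type*) [NormedAddCommGroup Y]
    [NormedSpace 𝕜 Y] : Prop :=
  ∀ (H : Type) [AddGroup H] (κ : H → ℕ → Bool), Function.Injective κ →
    ∀ φ : (Y →L[𝕜] E) → H, (∀ S T, φ (S + T) = φ S + φ T) →
    (∀ S : Y →L[𝕜] E, IsCompactOperator S → φ S = 0) →
    ∀ T : Y →L[𝕜] E, ReducesTo κ (fun x => φ ((D x).comp T)) (φ T = 0)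

end defs

/-- There is a Borel map `ρ` from the Cantor space to the sequences in the unit interval, sending
Turing equivalent reals to sequences with difference tending to zero, such that the following holds
for each real or complex Hilbert space `E` with a basis `(b n)`, the diagonal operators `D x` of `E`
with entries `ρ x n`, and all normed spaces `Y`. Let `F` be a function of bounded operators `Y → E`,
invariant under compact perturbations, with values in a set `C` with an injection `κ` into the
Cantor space. For every `T` the countably many sets `{x | κ (F (D x ∘ T)) i = true}` are Turing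
invariant, and if they are determined, then `F` takes the same value at four operators `S₁`, `S₂`,
`S₃`, `S₄` such that `S₁ - S₂ - S₃` and `T - S₁ - S₄` are compact. If moreover `C` is a group and `F`
is additive, then `F T = 0`. -/
theorem result :
    ∃ ρ : (ℕ → Bool) → ℕ → ℝ, Measurable ρ ∧ (∀ x n, ρ x n ∈ Set.Icc (0 : ℝ) 1) ∧
      (∀ x y, SameDegree x y → Tendsto (fun n => ρ x n - ρ y n) atTop (𝓝 0)) ∧
      ∀ (𝕜 : Type*) [RCLike 𝕜] (E : Type*) [NormedAddCommGroup E] [InnerProductSpace 𝕜 E]
        (b : HilbertBasis ℕ 𝕜 E),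
        ∃ D : (ℕ → Bool) → E →L[𝕜] E, (∀ x n, D x (b n) = (ρ x n : 𝕜) • b n) ∧
          ∀ (Y : Type*) [NormedAddCommGroup Y] [NormedSpace 𝕜 Y],
            Invariants D Y ∧ AdditiveMaps D Y := by
  refine ⟨rho, measurable_rho, fun x n => wv_mem _, fun x y h => rho_close h.1 h.2, ?_⟩
  intro 𝕜 _ E _ _ b
  have hp0 : 0 < (2 : ℝ≥0∞).toReal := by norm_num
  let R : E →L[𝕜] lp (fun _ : ℕ => 𝕜) 2 := b.repr.toContinuousLinearEquiv.toContinuousLinearMap
  let R' : lp (fun _ : ℕ => 𝕜) 2 →L[𝕜] E :=
    b.repr.symm.toContinuousLinearEquiv.toContinuousLinearMap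
  have hRR : ∀ v, R' (R v) = v := fun v => b.repr.symm_apply_apply v
  let M : (ℕ → ℝ) → E →L[𝕜] E := fun c => R'.comp ((mulOp 𝕜 2 c).comp R)
  have hMadd : ∀ u v : ℕ → ℝ, Bd u → Bd v → M (u + v) = M u + M v := by
    intro u v hu hv
    change R'.comp ((mulOp 𝕜 2 (u + v)).comp R) = _
    rw [mulOp_add hp0 hu hv, ContinuousLinearMap.add_comp, ContinuousLinearMap.comp_add]
  have hMone : M (fun _ => 1) = ContinuousLinearMap.id 𝕜 E := by
    change R'.comp ((mulOp 𝕜 2 (fun _ => 1)).comp R) = _
    rw [mulOp_one hp0, ContinuousLinearMap.id_comp]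
    ext v
    exact hRR v
  have hMcomp : ∀ u : ℕ → ℝ, Tendsto u atTop (𝓝 0) → IsCompactOperator (M u) := by
    intro u hu
    have h1 : IsCompactOperator ((mulOp 𝕜 2 u) ∘ R) := (mulOp_compact hp0 hu).comp_clm R
    exact h1.clm_comp R'
  refine ⟨fun x => M (rho x), fun x n => ?_, ?_⟩
  · change R' (mulOp 𝕜 2 (rho x) (R (b n))) = _
    have h1 : mulOp 𝕜 2 (rho x) (R (b n)) = (rho x n : 𝕜) • R (b n) := by
      ext m
      rw [mulOp_apply hp0 (rho_bd x)]
      change (rho x m : 𝕜) * (b.repr (b n)) m = (rho x n : 𝕜) • (b.repr (b n)) m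
      rw [HilbertBasis.repr_self]
      by_cases h : m = n
      · subst h
        rfl
      · rw [lp.single_apply_ne _ _ _ h, mul_zero, smul_zero]
    rw [h1, map_smul, hRR]
  intro Y _ _
  constructor
  · intro C κ hκ F hF T
    have hsub : ∀ u v : ℕ → ℝ, Bd u → Bd v → Tendsto (fun n => u n - v n) atTop (𝓝 0) →
        IsCompactOperator ((M u).comp T - (M v).comp T) := by
      intro u v hu hv h
      have h1 : u = (fun n => u n - v n) + v := by
        funext n
        simp
      have hb : Bd (fun n => u n - v n) := by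
        obtain ⟨C, hC⟩ := (Metric.isBounded_range_of_tendsto _ h).exists_norm_le
        exact ⟨C, fun n => hC _ ⟨n, rfl⟩⟩
      have h2 : (M u).comp T - (M v).comp T = (M (fun n => u n - v n)).comp T := by
        conv_lhs => rw [h1]
        rw [hMadd _ _ hb hv, ContinuousLinearMap.add_comp, add_sub_cancel_right]
      rw [h2]
      exact (hMcomp _ h).comp_clm T
    have hsum : ∀ x y : ℕ → Bool, Bd (rho x + rho y) := fun x y =>
      ⟨2, fun n => by
        have e1 := rho_abs x n
        have e2 := rho_abs y n
        have e3 := abs_add_le (rho x n) (rho y n)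
        simp only [Pi.add_apply]
        linarith⟩
    obtain ⟨h1, h2⟩ := colours κ hκ (fun c => F ((M c).comp T))
      (fun u v hu hv h => hF _ _ (hsub u v hu hv h))
    refine ⟨h1, fun hD => ?_⟩
    obtain ⟨x₁, x₂, x₃, x₄, e2, e3, e4, e5, e6⟩ := h2 hD
    refine ⟨(M (rho x₁)).comp T, (M (rho x₂)).comp T, (M (rho x₃)).comp T, (M (rho x₄)).comp T,
      e2, e3, e4, ?_, ?_⟩
    · have h3 := hsub (rho x₁) (rho x₂ + rho x₃) (rho_bd _) (hsum _ _) e5
      rw [hMadd _ _ (rho_bd _) (rho_bd _), ContinuousLinearMap.add_comp] at h3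
      exact h3
    · have h3 := hsub (fun _ => 1) (rho x₁ + rho x₄) ⟨1, fun n => by simp⟩ (hsum _ _) e6
      rw [hMadd _ _ (rho_bd _) (rho_bd _), ContinuousLinearMap.add_comp, hMone,
        ContinuousLinearMap.id_comp] at h3
      exact h3
  · intro H _ κ hκ φ hadd hnull T
    obtain ⟨h1, h2⟩ := principle κ hκ (fun c => φ ((M c).comp T))
      (fun u v hu hv => by
        rw [hMadd _ _ hu hv, ContinuousLinearMap.add_comp, hadd])
      (fun u hu => hnull _ ((hMcomp _ hu).comp_clm T))
    refine ⟨h1, fun hD => ?_⟩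
    have h3 := h2 hD
    rw [hMone, ContinuousLinearMap.id_comp] at h3
    exact h3

end Pool.Agent.Results.MP_917879_lc.CalkinAlgebra
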