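import Pool.Agent.V11217.TDE

set_option autoImplicit false

/-!
Turing determinacy and the real sequences modulo bounded sequences. Turing determinacy implies:
every real valued invariant of real sequences modulo bounded sequences is constant on all monotone
Lipschitz functions of one slow sequence, and on a circle spanned by two sequences which are linearly
independent modulo bounded sequences; so these classes have no linear ordering, and there is no
injection of them into the reals. The vector space of real sequences modulo bounded sequences has no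
norm, no Hamel basis, and every additive map on it with values in a group of size at most the
continuum vanishes on all slow sequences. Stated as explicit reductions to the determinacy of Turing
invariant sets.
-/

namespace Pool.Agent.Results.MP_917879_lc.ModuloBounded

open Pool.Agent.H685R3 Filter Topology

/-- `x` and `y` have the same Turing degree (Mathlib's Turing reducibility, for characteristic
functions). -/
def SameDegree (x y : ℕ → Bool) : Prop :=
  TuringReducible (charFn x) (charFn y) ∧ TuringReducible (charFn y) (charFn x)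

/-- The sequence `v` is bounded. -/
def Bdd (v : ℕ → ℝ) : Prop := ∃ C : ℝ, ∀ n, |v n| ≤ C

/-- The function `F` on the real sequences does not change under bounded perturbations. -/
def Invariant {X : Type*} (F : (ℕ → ℝ) → X) : Prop :=
  ∀ v w : ℕ → ℝ, Bdd (fun n => v n - w n) → F v = F w

/-- There is a Borel map `α` from the Cantor space to the sequences of natural numbers with
`α x n ≤ α y n + 1` for almost all `n` if `x` and `y` are Turing equivalent, such that the following
holds.

(1) Let `F` be an invariant function (of real sequences modulo bounded ones) with values in a set `X`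
with an injection `κ` into the Cantor space. The sets `{x | κ (F (k * α x)) i = true}` are Turing
invariant, and if they are determined, then `F (u ∘ N) = F N` for some surjective `N : ℕ → ℕ` tending
to infinity and all nondecreasing unbounded Lipschitz functions `u`.

(2) Let `F` and `κ` be as in (1). The sets `{x | κ (F (√(α x) * cos √(α x))) i = true}` are Turing
invariant, and if they are determined, then there are sequences `C`, `S`, linearly independent modulo
bounded sequences, such that `F (cos t * C + sin t * S) = F C` for all real `t`.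

(3) Let `R` be a relation between real sequences which does not change under bounded perturbations.
The set of `x` with `R v (-v)`, where `v = √(α x) * cos √(α x)`, is Turing invariant, and if it is
determined, then there is an unbounded sequence `v` with `R v (-v) ↔ R (-v) v`.

(4) Let `S` be a real valued invariant function with `S (2 v) = 2 S v`. The sets
`{x | q < S (α x)}`, `q` rational, are Turing invariant, and if they are determined, then `S v = 0`
for some sequence `v` tending to infinity.

(5) Let `φ` be an additive map from the real sequences to a group `H` (with an injection `κ` into the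
Cantor space) which vanishes on the bounded sequences. The sets `{x | κ (φ (α x)) i = true}` are Turing
invariant, and if they are determined, then there is a surjective `N : ℕ → ℕ` tending to infinity with
`φ (f ∘ N) = 0` for all Lipschitz functions `f`. -/
theorem result :
    ∃ α : (ℕ → Bool) → ℕ → ℕ, Measurable α ∧
      (∀ x y, SameDegree x y → ∀ᶠ n in atTop, α x n ≤ α y n + 1) ∧
      (∀ (X : Type*) (κ : X → ℕ → Bool), Function.Injective κ → ∀ F : (ℕ → ℝ) → X, Invariant F →
        (∀ k i : ℕ, TuringInvariant {x | κ (F fun n => (k : ℝ) * (α x n : ℝ)) i = true}) ∧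
        ((∀ k i : ℕ, Determined {x | κ (F fun n => (k : ℝ) * (α x n : ℝ)) i = true}) →
          ∃ N : ℕ → ℕ, Tendsto N atTop atTop ∧ Function.Surjective N ∧
            ∀ u : ℕ → ℝ, Monotone u → Tendsto u atTop atTop →
              (∃ K : ℝ, ∀ n, u (n + 1) ≤ u n + K) →
                F (fun n => u (N n)) = F fun n => (N n : ℝ))) ∧
      (∀ (X : Type*) (κ : X → ℕ → Bool), Function.Injective κ → ∀ F : (ℕ → ℝ) → X, Invariant F →
        (∀ i : ℕ, TuringInvariant
          {x | κ (F fun n => √(α x n : ℝ) * Real.cos (√(α x n : ℝ))) i = true}) ∧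
        ((∀ i : ℕ, Determined
          {x | κ (F fun n => √(α x n : ℝ) * Real.cos (√(α x n : ℝ))) i = true}) →
          ∃ C S : ℕ → ℝ, (∀ a b : ℝ, Bdd (fun n => a * C n + b * S n) → a = 0 ∧ b = 0) ∧
            ∀ t : ℝ, F (fun n => Real.cos t * C n + Real.sin t * S n) = F C)) ∧
      (∀ R : (ℕ → ℝ) → (ℕ → ℝ) → Prop,
        (∀ v v' w w' : ℕ → ℝ, Bdd (fun n => v n - v' n) → Bdd (fun n => w n - w' n) →
          (R v w ↔ R v' w')) →
        TuringInvariant {x | R (fun n => √(α x n : ℝ) * Real.cos (√(α x n : ℝ)))
          (fun n => -(√(α x n : ℝ) * Real.cos (√(α x n : ℝ))))} ∧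
        (Determined {x | R (fun n => √(α x n : ℝ) * Real.cos (√(α x n : ℝ)))
          (fun n => -(√(α x n : ℝ) * Real.cos (√(α x n : ℝ))))} →
          ∃ v : ℕ → ℝ, ¬ Bdd v ∧ (R v (fun n => -v n) ↔ R (fun n => -v n) v))) ∧
      (∀ S : (ℕ → ℝ) → ℝ, Invariant S → (∀ v : ℕ → ℝ, S (fun n => 2 * v n) = 2 * S v) →
        (∀ q : ℚ, TuringInvariant {x | (q : ℝ) < S fun n => (α x n : ℝ)}) ∧
        ((∀ q : ℚ, Determined {x | (q : ℝ) < S fun n => (α x n : ℝ)}) →
          ∃ v : ℕ → ℝ, Tendsto v atTop atTop ∧ S v = 0)) ∧
      (∀ (H : Type*) [AddGroup H] (κ : H → ℕ → Bool), Function.Injective κ →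
        ∀ φ : (ℕ → ℝ) → H, (∀ u v : ℕ → ℝ, φ (u + v) = φ u + φ v) → (∀ u, Bdd u → φ u = 0) →
        (∀ i : ℕ, TuringInvariant {x | κ (φ fun n => (α x n : ℝ)) i = true}) ∧
        ((∀ i : ℕ, Determined {x | κ (φ fun n => (α x n : ℝ)) i = true}) →
          ∃ N : ℕ → ℕ, Tendsto N atTop atTop ∧ Function.Surjective N ∧
            ∀ f : ℕ → ℝ, (∃ K, ∀ n, |f (n + 1) - f n| ≤ K) → φ (fun n => f (N n)) = 0)) := by
  refine ⟨Pool.Agent.TH774.TD.al, measurable_pi_lambda _ Pool.Agent.TH774.TD.measurable_al,
    fun x y h => Pool.Agent.TH774.TD.al_le_al h.2, ?_, ?_, ?_, ?_, ?_⟩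
  · intro X κ hκ F hF
    refine ⟨(V11217.TDB.partA κ hκ F hF).1, fun hD => ?_⟩
    obtain ⟨N, h1, h2, h3⟩ := (V11217.TDB.partA κ hκ F hF).2 hD
    exact ⟨N, h1, h2, fun u hu hu' ⟨K, hK⟩ => h3 K u ⟨hu, hK, hu'⟩⟩
  · intro X κ hκ F hF
    exact V11217.TDB.partB κ hκ F hF
  · intro R hR
    classical
    let F : (ℕ → ℝ) → Bool := fun v => decide (R v fun n => -v n)
    have hF : ∀ v w : ℕ → ℝ, Bdd (fun n => v n - w n) → F v = F w := by
      intro v w h
      refine decide_eq_decide.2 (hR _ _ _ _ h ?_)
      obtain ⟨C, hC⟩ := h
      refine ⟨C, fun n => ?_⟩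
      have h1 : -v n - -w n = -(v n - w n) := by ring
      show |-v n - -w n| ≤ C
      rw [h1, abs_neg]
      exact hC n
    have hκ : Function.Injective fun (b : Bool) (_ : ℕ) => b := fun a b h => congrFun h 0
    obtain ⟨h1, h2⟩ := V11217.TDB.partB (fun (b : Bool) (_ : ℕ) => b) hκ F hF
    have hset : {x | R (fun n => √(Pool.Agent.TH774.TD.al x n : ℝ) *
          Real.cos (√(Pool.Agent.TH774.TD.al x n : ℝ)))
          (fun n => -(√(Pool.Agent.TH774.TD.al x n : ℝ) *
            Real.cos (√(Pool.Agent.TH774.TD.al x n : ℝ))))} =
        {x | F (fun n => V11217.TDB.sp (Pool.Agent.TH774.TD.al x n)) = true} := by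
      ext x
      exact decide_eq_true_iff.symm
    rw [hset]
    refine ⟨h1 0, fun hD => ?_⟩
    obtain ⟨C, S, h3, h4⟩ := h2 fun _ => hD
    have h5 := h4 Real.pi
    have h6 : (fun n => Real.cos Real.pi * C n + Real.sin Real.pi * S n) = fun n => -C n := by
      funext n
      rw [Real.cos_pi, Real.sin_pi]
      ring
    rw [h6] at h5
    refine ⟨C, fun hC => ?_, ?_⟩
    · obtain ⟨M, hM⟩ := hC
      have h7 := (h3 1 0 ⟨M, fun n => by simpa using hM n⟩).1
      exact one_ne_zero h7
    · have h7 := decide_eq_decide.1 h5
      simp only [neg_neg] at h7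
      exact h7.symm
  · intro S hS h2
    exact V11217.TDB.partD S hS h2
  · intro H _ κ hκ φ hadd hb
    exact V11217.TDB.partC κ hκ φ hadd hb

end Pool.Agent.Results.MP_917879_lc.ModuloBounded
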